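import Mathlib
import Pool.Agent.X73.VH.Final

/-!
# Families with large `2d`-wise intersections can be partitioned with small loss of volume

For every `d ≥ 1` and `δ > 0` there is `r = r(d, δ)` such that every finite family of convex sets in
`ℝ^d` with `vol (K_1 ∩ … ∩ K_{2d}) ≥ 1` for every choice of `2d` members can be partitioned into
`r` parts such that the intersection of each part has volume at least `1 - δ` (the intersection of
an empty part is the whole space).

The hypothesis may be read in either way: for all choices with repetitions (so that also the
intersections of fewer than `2d` members have volume at least `1`), or only for choices of `2d`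
distinct members, if there are at least `2d` members; in the latter case it implies the former.

Proof: in suitable affine coordinates all members contain the cube `[-1,1]^d`, and the
determinant of the coordinate change is bounded below in terms of `d` (a proof of the
quantitative Helly theorem of Bárány, Katchalski and Pach that also controls the position).
Then members are large inside a cube of bounded size, and members containing the same cells of a
fine grid contain each other's parts in this cube up to a factor close to `1`.
-/

set_option autoImplicit false

open Set MeasureTheory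

namespace Pool.Agent.Results.MP_05b917_co.Partition

theorem result : ∀ d : ℕ, 1 ≤ d → ∀ δ : ℝ, 0 < δ →
    ∃ r : ℕ, ∀ (ι : Type) [Finite ι] (K : ι → Set (Fin d → ℝ)), (∀ i, Convex ℝ (K i)) →
      ((∀ f : Fin (2 * d) → ι, 1 ≤ volume (⋂ j, K (f j))) ∨
        (2 * d ≤ Nat.card ι ∧ ∀ f : Fin (2 * d) → ι, Function.Injective f →
          1 ≤ volume (⋂ j, K (f j)))) →
      ∃ P : ι → Fin r, ∀ j, ENNReal.ofReal (1 - δ) ≤ volume (⋂ i ∈ {i | P i = j}, K i) := by
  classical
  intro d hd δ hδ
  obtain ⟨r, hr⟩ := X73.VH.main (d := d) hd δ hδ
  refine ⟨r, fun ι _ K hK H => hr ι K hK ?_⟩
  rcases H with H | ⟨hcard, H⟩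
  · exact H
  intro f
  have := Fintype.ofFinite ι
  rw [Nat.card_eq_fintype_card] at hcard
  obtain ⟨I, hI1, hI2⟩ := Finset.exists_superset_card_eq (s := Finset.univ.image f) (n := 2 * d)
    (Finset.card_image_le.trans (by simp)) hcard
  set e : Fin (2 * d) ≃ I := (finCongr hI2.symm).trans I.equivFin.symm with he
  refine (H (fun j => (e j).1) fun a b hab => e.injective (Subtype.ext hab)).trans
    (measure_mono ?_)
  intro x hx
  rw [mem_iInter] at hx ⊢
  intro j
  have h1 := hx (e.symm ⟨f j, hI1 (Finset.mem_image_of_mem _ (Finset.mem_univ j))⟩)
  simpa using h1

end Pool.Agent.Results.MP_05b917_co.Partition
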